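import Pool.Agent.LTCB.Main
import Pool.Agent.LTCB.NegFinal

/-!
# Local testability of binary affine invariant codes: the exact threshold

For binary codes which are invariant under the affine maps of a finite field of characteristic two
(the class studied in the literature) the statement of the question holds exactly for `q ≤ 5`; in
particular the statement of the question fails for binary doubly transitive codes and `q = 6`.
-/

namespace Pool.Agent.Results.MP_9eb38d_lc.BinaryThreshold

open Pool.Agent.LTC Pool.Agent.LTCB

theorem lowWeightDual_mono {ι : Type} [Fintype ι]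
    (C : Submodule (ZMod 2) (ι → ZMod 2)) {q q' : ℕ} (h : q ≤ q')
    (hspan : Submodule.span (ZMod 2) (lowWeightDual C q) = dualCode C) :
    Submodule.span (ZMod 2) (lowWeightDual C q') = dualCode C := by
  refine le_antisymm (Submodule.span_le.2 fun u hu => hu.1) ?_
  rw [← hspan]
  exact Submodule.span_mono fun u hu => ⟨hu.1, hu.2.trans h⟩

/-- For binary affine invariant codes the uniform local testability statement of the question, for
one value `q`, is true if and only if `q ≤ 5`. For all binary doubly transitive codes it is false
for every `q ≥ 6`. -/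
theorem result : (∀ q : ℕ, AffineTestable q ↔ q ≤ 5) ∧ ∀ q : ℕ, 6 ≤ q → ¬ BinaryTestable q := by
  refine ⟨fun q => ⟨?_, fun hq => ?_⟩, fun q hq => ?_⟩
  · rintro ⟨q', s, hs, h⟩
    by_contra hq
    push Not at hq
    obtain ⟨K, iF, iFt, iC, C, h1, h2, h3⟩ := exists_affine_not_testable q' s hs
    exact h3 (@h K iF iFt iC C h1 (lowWeightDual_mono C hq h2))
  · refine ⟨8, 1 / 512, by norm_num, ?_⟩
    intro K _ _ _ C hC hspan
    exact testable_five hC (lowWeightDual_mono C hq hspan)
  · rintro ⟨q', s, hs, h⟩
    obtain ⟨K, iF, iFt, iC, C, h1, h2, h3⟩ := exists_affine_not_testable q' s hs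
    exact h3 (@h K iFt C (AffineInvariant.doublyTransitive h1) (lowWeightDual_mono C hq h2))

end Pool.Agent.Results.MP_9eb38d_lc.BinaryThreshold
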